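import Pool.Agent.TH177.MP.Counter

/-!
# MP_657af9_ag: direct images by projective morphisms do not preserve monodromy-pure complexes

Let `K` be a `p`-adic local field with finite residue field `k` and `ℓ ≠ p` a prime. The conjecture says
that the direct image of a monodromy-pure complex on `X ×_s η` by a projective morphism `X ⟶ Y` of
schemes of finite type over `k` is monodromy-pure of the same weight. We show that it is false for all
`K` and `ℓ`, for the morphism `ℙ¹ ⟶ Spec k` and a perverse sheaf `F` which is monodromy-pure of weight
zero, with unipotent action of the inertia group.

The example. Let `S` be the skyscraper sheaf `ℚ_ℓ` at the origin of `ℙ¹`, let `J` be the extension by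
zero of `ℚ_ℓ[1]` from the complement of the origin and `Q = ℚ_ℓ[1]`. There is an exact sequence
`0 ⟶ S ⟶ J ⟶ Q ⟶ 0` of perverse sheaves on `ℙ¹`, which we consider as perverse sheaves on `ℙ¹ ×_s η` with
the trivial action of inertia. Let `E` be the Kummer extension of `ℚ_ℓ` by `ℚ_ℓ(1)` given by a
uniformizer of `K`, a representation of the Galois group of `K`, and `V = E[1]`, which is an extension of
`Q` by `Z = ℚ_ℓ(1)[1]`. The operator `N` of `V` is `V ⟶ Q ≅ Z (-1) ⟶ V (-1)`. Let `F` be the fibre
product of `V` and `J` over `Q`. The monodromy filtration of `F` has the graded pieces `Z`, `S`, `Q` in
the degrees `-1`, `0`, `1`, and these are pure of weights `-1`, `0`, `1`. Hence `F` is monodromy-pure of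
weight `0`. The exact sequence `0 ⟶ Z ⟶ F ⟶ J ⟶ 0` and `H^i (ℙ¹, J) = H^(i + 1)_c (𝔸¹, ℚ_ℓ) = 0` for
`i < 0` give `H^(-1) (ℙ¹, F) = H^0 (ℙ¹, ℚ_ℓ)(1) = ℚ_ℓ(1)`. This is pure of weight `-2` and `N` is zero on
it, so it is monodromy-pure of weight `-2`, and not of weight `-1` as the conjecture predicts.

The formalization. `Theory k` is the data of the categories of mixed complexes and of mixed perverse
sheaves on `X ×_s η`, for the schemes `X` of finite type over `k`, with the perverse cohomology
functors, the direct images, the Tate twist and the purity of perverse sheaves, and the operators `N`.
`IsTheory` says that these have the usual properties, all of them well known: the elementary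
properties of weights; the long exact sequence of perverse cohomology of direct images, which commute
with the Tate twist and with `N`; the theorem of Deligne and Gabber that direct images by projective
morphisms preserve purity. `LineSheaves` is the data of the sheaves `S`, `J`, `Q`, `Z`, `V` on `ℙ¹` with
the properties above. The definitions of the monodromy filtration, of monodromy-pure perverse sheaves
and complexes, of projective morphisms and of the projective line are the usual ones.
-/

namespace Pool.Agent.Results.MP_657af9_ag.PushforwardFails

open Pool.Agent.TH177.MP

universe u v w

/-- **Direct images by projective morphisms do not preserve monodromy-pure complexes**; this fails for a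
perverse sheaf on the projective line and the structure morphism of the projective line. -/
theorem result {k : Type u} [Field k] [Finite k] (P : Theory.{u, v, w} k) (hP : P.IsTheory)
    (L : P.LineSheaves) :
    ¬ P.ProjectivePushforward ∧
      ∃ F : P.Perv (projectiveSpace k 1), P.MonodromyPure 0 ((P.incl _).obj F) ∧
        ¬ P.MonodromyPure 0 ((P.push (toPoint k 1)).obj ((P.incl _).obj F)) :=
  ⟨Theory.not_projectivePushforward hP L, Theory.exists_not_monodromyPure hP L⟩

end Pool.Agent.Results.MP_657af9_ag.PushforwardFails
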